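import Pool.Agent.Results.MP_321647_nt.ShortPresentations

/-!
# Class number one of `ℚ(√p)` has certificates of polynomial length, for 100% of the primes

For `2 < b < a` and 100% of the primes `p` the class group and the units of the real quadratic field of `p` are
given by at most `(log p)^a` explicit small elements (`FewRelations`, see the file `ShortPresentations` of
MP_321647_nt, where the radicands are the squarefree integers and the candidates of genus theory; the primes have
density zero among both).  Consequently the proportion `R(x)` of the primes with class number one tends to a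
number `c` if and only if the proportion of the primes with a certificate (at most `(log p)^a` elements
`(u + v √p) / w` with `|u|, |v|, |w| ≤ p ^ (b + 2)`, whose ideals are short products of tiny primes and generate
all tiny primes) tends to `c`; so the Cohen-Lenstra conjecture (`c = C`) is a statement on these certificates.
-/

set_option autoImplicit false

namespace Pool.Agent.Results.MP_d0fd9b_nt.ShortCertificates

open Filter NumberField Pool.Agent.H951R5.AR
open Pool.Agent.Results.MP_321647_nt.ShortPresentations

/-- The class number of the quadratic field of the square root of `p` is one. -/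
def ClassNumberOne (p : ℕ) : Prop :=
  ∀ (K : Type) [Field K] [NumberField K], Module.finrank ℚ K = 2 →
    (∃ s : K, s ^ 2 = (p : K)) → NumberField.classNumber K = 1

/-- Some set of at most `(log p)^a` explicit small elements generates all prime ideals of norm at most
`(log p)^b`. -/
def HasCertificate (a b : ℝ) (p : ℕ) : Prop :=
  ∀ (K : Type) [Field K] [NumberField K], Module.finrank ℚ K = 2 →
    ∀ s : K, s ^ 2 = (p : K) → ∀ σ τ : K →+* ℝ, σ ≠ τ →
      ∃ Y : Finset Kˣ, (Y.card : ℝ) ≤ (Real.log p) ^ a ∧
        (∀ x ∈ Y, Small K σ τ b p x ∧ Explicit s b p x) ∧ Generates ((Real.log p) ^ b) Y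

/-- The proportion of the primes up to `X` with the property `G`. -/
noncomputable def proportion (G : ℕ → Prop) (X : ℕ) : ℝ :=
  (Nat.card {p : ℕ // p ≤ X ∧ p.Prime ∧ G p} : ℝ) / (Nat.card {p : ℕ // p ≤ X ∧ p.Prime} : ℝ)

theorem one_iff_ufd (K : Type) [Field K] [NumberField K] :
    NumberField.classNumber K = 1 ↔ UniqueFactorizationMonoid (𝓞 K) := by
  rw [NumberField.classNumber_eq_one_iff]
  constructor
  · intro h
    infer_instance
  · intro h
    exact IsPrincipalIdealRing.of_isDedekindDomain_of_uniqueFactorizationMonoid (𝓞 K)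

theorem exists_embeddings {p : ℕ} (hp : p.Prime) (K : Type) [Field K] [NumberField K]
    (h2 : Module.finrank ℚ K = 2) (hs : ∃ s : K, s ^ 2 = (p : K)) :
    ∃ σ τ : K →+* ℝ, σ ≠ τ := by
  have hd := Pool.Agent.H38R2.CG.T_N0d K p hp.one_lt hp.squarefree h2 hs
  have h : ∃ D : ℕ, 0 < D ∧ NumberField.discr K = (D : ℤ) := by
    by_cases h4 : p % 4 = 1
    · rw [if_pos h4] at hd
      exact ⟨p, hp.pos, hd⟩
    · rw [if_neg h4] at hd
      exact ⟨4 * p, by have := hp.pos; omega, by rw [hd]; push_cast; ring⟩
  obtain ⟨D, hD, hdisc⟩ := h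
  obtain ⟨e⟩ := Pool.Agent.H38R2.CG.N0h.main hD h2 hdisc
  exact ⟨e.σ, e.τ, e.ne⟩

theorem one_iff_certificate {a b : ℝ} {p : ℕ} (hp : p.Prime) (h : FewRelations a b p) :
    ClassNumberOne p ↔ HasCertificate a b p := by
  constructor
  · intro h1 K _ _ h2 s hs σ τ hne
    exact (h K h2 s hs σ τ hne).2.1 ((one_iff_ufd K).1 (h1 K h2 ⟨s, hs⟩))
  · intro h1 K _ _ h2 hs
    obtain ⟨σ, τ, hne⟩ := exists_embeddings hp K h2 hs
    obtain ⟨s, hs⟩ := hs
    exact (one_iff_ufd K).2 ((h K h2 s hs σ τ hne).2.2 (h1 K h2 s hs σ τ hne))

theorem prop_close (G G' H : ℕ → Prop) (hGG : ∀ p : ℕ, p.Prime → H p → (G p ↔ G' p)) (X : ℕ) :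
    |proportion G X - proportion G' X| ≤ proportion (fun p => ¬ H p) X := by
  have key : ∀ G G' : ℕ → Prop, (∀ p : ℕ, p.Prime → H p → (G p ↔ G' p)) →
      proportion G X ≤ proportion G' X + proportion (fun p => ¬ H p) X := by
    intro G G' hGG
    unfold proportion
    rw [← add_div]
    refine div_le_div_of_nonneg_right ?_ (Nat.cast_nonneg _)
    have fin : ∀ P : ℕ → Prop, {p : ℕ | p ≤ X ∧ p.Prime ∧ P p}.Finite := fun P =>
      (Set.finite_Iic X).subset fun p hp => hp.1
    have hsub : {p : ℕ | p ≤ X ∧ p.Prime ∧ G p} ⊆
        {p : ℕ | p ≤ X ∧ p.Prime ∧ G' p} ∪ {p : ℕ | p ≤ X ∧ p.Prime ∧ ¬ H p} := by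
      rintro p ⟨h1, h3, h4⟩
      by_cases hH : H p
      · exact Or.inl ⟨h1, h3, (hGG p h3 hH).1 h4⟩
      · exact Or.inr ⟨h1, h3, hH⟩
    have h1 := (Set.ncard_le_ncard hsub ((fin _).union (fin _))).trans (Set.ncard_union_le _ _)
    exact_mod_cast h1
  rw [abs_le]
  have h1 := key G G' hGG
  have h2 := key G' G fun p hp hH => (hGG p hp hH).symm
  constructor <;> linarith

/-- For `2 < b < a`: the property `FewRelations a b` holds for 100% of the primes, and `R(x)`, the proportion of
the primes with class number one, tends to `c` if and only if the proportion of the primes with a certificate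
tends to `c`. -/
theorem result :
    ∀ a b : ℝ, 2 < b → b < a →
      Tendsto (proportion (fun p => ¬ FewRelations a b p)) atTop (nhds 0) ∧
      ∀ c : ℝ, Tendsto (proportion ClassNumberOne) atTop (nhds c) ↔
        Tendsto (proportion (HasCertificate a b)) atTop (nhds c) := by
  intro a b hb hab
  obtain ⟨d0, hd0⟩ := few a b hb hab
  have h1 : Tendsto (proportion (fun p => ¬ FewRelations a b p)) atTop (nhds 0) :=
    Pool.Agent.V11318.SP.almost_primes _ _ (finalARP_true b hb) d0
      fun d hd hp hg => hd0 d hd hp.two_le hp.squarefree hg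
  refine ⟨h1, fun c => ?_⟩
  have hdiff : Tendsto (fun X => proportion ClassNumberOne X - proportion (HasCertificate a b) X)
      atTop (nhds 0) :=
    squeeze_zero_norm (fun X => by
      rw [Real.norm_eq_abs]
      exact prop_close _ _ _ (fun p hp h => one_iff_certificate hp h) X) h1
  constructor
  · intro h
    have := h.sub hdiff
    simpa using this
  · intro h
    have := h.add hdiff
    simpa using this

end Pool.Agent.Results.MP_d0fd9b_nt.ShortCertificates
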